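import Pool.Agent.Lib.MP_4322ef_CH.Mg.G009
import Pool.Agent.Lib.MP_4322ef_CE.Mg.G006
import Pool.Agent.Lib.MP_4322ef_CE.Mg.G004
import Pool.Agent.Lib.MP_4322ef_CP.Mg.G001
import Pool.Agent.Lib.MP_4322ef_CE.Mg.G005

/-!
# The theorem of the highest weight, the final theorem

`hwt_all`: `S` = the finite set `Simp L C.a H` (`simp_pos`), `y ga` from `exists_mult`, `c ga = ⟪ga, y⟫ / ⟪ga, y ga⟫`. `y - ∑ c ga • y ga` is in the
span of the roots (`Semi`) and orthogonal to all simple roots, so to itself (`simp_zero`); so `y = ∑ c ga • y ga`. `vd_sum`, `vd_min`,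
`vl_crep`.
-/

set_option autoImplicit false

open scoped InnerProductSpace

namespace Pool.Agent.Lib.MP_4322ef_CH

open Pool.Agent.Lib.MP_4322ef_al.SR

variable {g : Type} [NormedAddCommGroup g] [InnerProductSpace ℝ g] {L : RedLie g}
  [FiniteDimensional ℝ g]

theorem hwt_all (J : CStr L) (C : CSub L) : HWT J C.a := by
  classical
  intro H hH y hint hsemi hdom
  obtain ⟨S, c₀, hS, -, -⟩ := simp_pos C hH
  have hex : ∀ ga, ∃ z : g, ga ∈ S → Semi L C.a z ∧ (∀ de ∈ Simp L C.a H, de ≠ ga → ⟪de, z⟫_ℝ = 0) ∧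
      0 < ⟪ga, z⟫_ℝ ∧ ∃ (V : Type) (_ : NormedAddCommGroup V) (_ : InnerProductSpace ℂ V)
        (_ : FiniteDimensional ℂ V) (t : CRep J V) (v : V), HW t C.a H z v := by
    intro ga
    by_cases hga : ga ∈ S
    · obtain ⟨z, hz⟩ := exists_mult J C hH ((hS ga).1 hga)
      exact ⟨z, fun _ => hz⟩
    · exact ⟨0, fun h => absurd h hga⟩
  choose z hz using hex
  obtain ⟨c, hc⟩ : ∃ c : g → ℝ, ∀ ga, c ga = ⟪ga, y⟫_ℝ / ⟪ga, z ga⟫_ℝ := ⟨_, fun _ => rfl⟩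
  have hsum : ∑ ga ∈ S, c ga • z ga = y := by
    have hmem : y - ∑ ga ∈ S, c ga • z ga ∈ C.a := C.a.sub_mem hsemi.1
      (C.a.sum_mem fun ga hga => C.a.smul_mem _ (hz ga hga).1.1)
    have h1 : ∀ de ∈ Simp L C.a H, ⟪de, y - ∑ ga ∈ S, c ga • z ga⟫_ℝ = 0 := by
      intro de hde
      have hdeS := (hS de).2 hde
      rw [inner_sub_right, inner_sum, Finset.sum_eq_single de]
      · rw [real_inner_smul_right, hc, div_mul_cancel₀ _ (hz de hdeS).2.2.1.ne', sub_self]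
      · intro ga hga hne
        rw [real_inner_smul_right, (hz ga hga).2.1 de hde (Ne.symm hne), mul_zero]
      · intro h
        exact absurd hdeS h
    have h2 := simp_zero C hH h1
    have h3 : ⟪y - ∑ ga ∈ S, c ga • z ga, y - ∑ ga ∈ S, c ga • z ga⟫_ℝ = 0 := by
      rw [inner_sub_left, hsemi.2 _ hmem h2, sum_inner, zero_sub, neg_eq_zero]
      refine Finset.sum_eq_zero fun ga hga => ?_
      rw [real_inner_smul_left, (hz ga hga).1.2 _ hmem h2, mul_zero]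
    exact (sub_eq_zero.1 (inner_self_eq_zero.1 h3)).symm
  obtain ⟨M, i1, i2, ⟨K⟩⟩ := vd_sum (J := J) C hH S z c fun ga hga => (hz ga hga).2.2.2
  rw [hsum] at K
  obtain ⟨M', k1, k2, ⟨K'⟩⟩ := vd_min K
  exact vl_crep C hH hsemi.1 hint hdom K'

theorem final_all (J : CStr L) (C : CSub L)
    {X : Type} [NormedAddCommGroup X] [InnerProductSpace ℂ X] (r : HC L X) (B : InvForm r)
    {V₀ : Submodule ℂ X} (hV₀ : IsKType L r.op V₀) {mu nu z : g} (hmu : IsExt J C.a r.op V₀ mu)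
    (hnu : nu ∈ C.a) (hX : IsLang J C.a r.op mu nu)
    (hz : z ∈ C.a) (hz0 : ∀ al ∈ roots L C.a, ⟪al, z⟫_ℝ = 0)
    (hin : InHull L C.a (mu - z))
    (hout : ¬(InHull L C.a (mu + nu - z) ∧ InHull L C.a (mu - nu - z))) :
    ∃ V₁ V₂ : Submodule ℂ X, IsKType L r.op V₁ ∧ IsKType L r.op V₂ ∧
      SmallAt J C.a r.op z V₁ ∧ SmallAt J C.a r.op z V₂ ∧
      (∀ v ∈ V₁, v ≠ 0 → 0 < (B.form v v).re) ∧ ∀ v ∈ V₂, v ≠ 0 → (B.form v v).re < 0 :=
  final_hwt J C r B hV₀ hmu hnu hX hz hz0 (hwt_all J C) hin hout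

end Pool.Agent.Lib.MP_4322ef_CH
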